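import Pool.Agent.H5SF.SGraph

/-!
# Turan's bound for all 3-graphs containing the Fon-Der-Flaass 3-graph of an oriented graph
-/

namespace Pool.Agent.Results.MP_466853_co.ContainsFdf

open Finset Pool.Agent.H5

/-- Let `H` be a 3-graph on `n` vertices in which every four vertices span an edge, and let `Γ` be
any oriented graph on the same vertices, with `m` arcs; induced directed 4-cycles are allowed.
Then the number of edges of `H` plus the number of triples of the Fon-Der-Flaass 3-graph of `Γ`
that are not edges of `H` is at least `2n³/27 - n²/2 + n/3 + m/2`. In particular this is a lower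
bound for the number of edges of every `H` that contains the Fon-Der-Flaass 3-graph of some
oriented graph; the leading term is `(4/9) * n³/6`, the bound of Turan's (3,4)-conjecture. -/
theorem result : ∀ (n : ℕ) (H : Finset (Finset (Fin n))), (∀ e ∈ H, e.card = 3) →
    (∀ S : Finset (Fin n), S.card = 4 → ∃ e ∈ H, e ⊆ S) →
    ∀ Γ : Orgraph n,
    (2 / 27 : ℝ) * (n : ℝ) ^ 3 - (n : ℝ) ^ 2 / 2 + (n : ℝ) / 3 + (Γ.arcs.card : ℝ) / 2
      ≤ (H.card : ℝ) + ((Γ.fdf \ H).card : ℝ) := by
  intro n H h3 hT Γ
  have hT' : SF.Turan (H ∪ (Γ.fdf \ H)) := by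
    refine ⟨?_, ?_⟩
    · intro e he
      rw [mem_union, mem_sdiff] at he
      rcases he with he | ⟨he, _⟩
      · exact h3 e he
      · exact Γ.card_of_mem_fdf he
    · intro S hS
      obtain ⟨e, he, hes⟩ := hT S hS
      exact ⟨e, mem_union_left _ he, hes⟩
  have hsub : Γ.fdf ⊆ H ∪ (Γ.fdf \ H) := by
    intro e he
    by_cases h : e ∈ H
    · exact mem_union_left _ h
    · exact mem_union_right _ (mem_sdiff.mpr ⟨he, h⟩)
  have h1 := SF.main Γ _ hT' hsub
  have h2 : ((H ∪ (Γ.fdf \ H)).card : ℝ) ≤ (H.card : ℝ) + ((Γ.fdf \ H).card : ℝ) := by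
    exact_mod_cast card_union_le _ _
  linarith

end Pool.Agent.Results.MP_466853_co.ContainsFdf
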