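import Mathlib
import Pool.Agent.H4.BSpec
import Pool.Agent.H4.BNum

/-!
No finite local certificate (in particular, no finite flag-algebra certificate) proves Turán's
bound `4/9`, not even for the Fon-der-Flaass 3-graphs of orientations of complete 3-partite graphs,
and not even with the help of the degree-regularity of extremal configurations.
-/

namespace Pool.Agent.Results.MP_466853_co.FlagBarrier

open Pool.Agent.H4

/-- Let `w` be a real function on the labelled 3-graphs with `N` vertices that is asymptotically
nonnegative on the class `IsFDF3`, up to a constant times the irregularity of the degrees. Then the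
inequality `4/9 + w F ≤ |F| / C(N,3)` fails for some Turán (3,4)-graph `F` on `N` vertices of that
class. -/
theorem result (N : ℕ) (w : Finset (Finset (Fin N)) → ℝ) (hw : AsympNonneg w) :
    ¬ ∀ F : Finset (Finset (Fin N)), IsFDF3 F → IsTuran34 F →
        4 / 9 + w F ≤ (F.card : ℝ) / (N.choose 3 : ℝ) :=
  barrier N w hw

end Pool.Agent.Results.MP_466853_co.FlagBarrier
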