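import Pool.Agent.H77Lp.Main
import Pool.Agent.H77Lp.AllLinks
import Pool.Agent.H77Lp.PointL
import Pool.Agent.H6Turan.Graph

set_option autoImplicit false

/-!
Turán's (3,4)-problem for the `p`-th powers of the codegrees: Turán's construction is optimal for
every real `3/2 ≤ p ≤ 29/10`. For `1 ≤ p < 3/2` (`p = 1` is Turán's problem itself) it is optimal up
to the density of either of two configurations on six vertices, and up to the density of induced
copies of `L` in the links of the vertices, for every graph `L` on four vertices.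
-/

namespace Pool.Agent.Results.MP_466853_co.LpNorm

open Pool.Agent.H6Turan Pool.Agent.H77Lp

/-- `IsCopy H A f x`: `x 0, …, x 5` are six distinct vertices, and for every set `t` of three labels
other than `f`, the image of `t` is an edge of `H` if and only if `t ∈ A` (the triple `f` is free) -/
def IsCopy {n : ℕ} (H : Finset (Finset (Fin n))) (A : Finset (Finset (Fin 6)))
    (f : Finset (Fin 6)) (x : Fin 6 → Fin n) : Prop :=
  Function.Injective x ∧ ∀ t : Finset (Fin 6), t.card = 3 → t ≠ f → (t.image x ∈ H ↔ t ∈ A)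

open Classical in
/-- the number of maps `x : Fin 6 → Fin n` with `IsCopy H A f x` -/
noncomputable def copies {n : ℕ} (H : Finset (Finset (Fin n))) (A : Finset (Finset (Fin 6)))
    (f : Finset (Fin 6)) : ℕ :=
  (Finset.univ.filter (fun x : Fin 6 → Fin n => IsCopy H A f x)).card

/-- the seven edges of the first configuration (its free triple is `{2, 4, 5}`) -/
def A₁ : Finset (Finset (Fin 6)) :=
  {{0, 2, 4}, {0, 2, 5}, {0, 3, 4}, {0, 3, 5}, {1, 2, 3}, {1, 4, 5}, {3, 4, 5}}

/-- the seven edges of the second configuration (its free triple is `{0, 4, 5}`) -/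
def A₂ : Finset (Finset (Fin 6)) :=
  {{2, 3, 4}, {2, 3, 5}, {2, 4, 5}, {3, 4, 5}, {0, 1, 2}, {0, 1, 3}, {1, 4, 5}}

/-- `x 0, …, x 3` are four distinct vertices other than `v`, and the link of `v` in `H` induces on
them a copy of `L`: for `i ≠ j`, `{v, x i, x j}` is an edge of `H` if and only if `i, j` are adjacent
in `L` -/
def IsLinkCopy {n : ℕ} (H : Finset (Finset (Fin n))) (L : SimpleGraph (Fin 4))
    (v : Fin n) (x : Fin 4 → Fin n) : Prop :=
  Function.Injective x ∧ (∀ i, x i ≠ v) ∧ ∀ i j, i ≠ j → ({v, x i, x j} ∈ H ↔ L.Adj i j)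

open Classical in
/-- the number of labelled induced copies of `L` in the links of the vertices of `H` -/
noncomputable def linkCopies {n : ℕ} (H : Finset (Finset (Fin n))) (L : SimpleGraph (Fin 4)) : ℕ :=
  (Finset.univ.filter (fun y : Fin n × (Fin 4 → Fin n) => IsLinkCopy H L y.1 y.2)).card

/-- the paw: a triangle with a pendant edge -/
def paw : SimpleGraph (Fin 4) :=
  SimpleGraph.fromEdgeSet {s(0, 1), s(0, 2), s(1, 2), s(2, 3)}

/-- the number of vertices `z` other than `x, y` for which `{x, y, z}` is not an edge of `H` (the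
codegree of `x, y` in the complement of `H`) -/
def codeg {n : ℕ} (H : Finset (Finset (Fin n))) (x y : Fin n) : ℕ :=
  (Finset.univ.filter (fun z => z ≠ x ∧ z ≠ y ∧ ({x, y, z} : Finset (Fin n)) ∉ H)).card

/-- the sum of the `p`-th powers of the codegrees over all ordered pairs of distinct vertices -/
noncomputable def pairSum {n : ℕ} (H : Finset (Finset (Fin n))) (p : ℝ) : ℝ :=
  ∑ x : Fin n, ∑ y ∈ Finset.univ.erase x, (codeg H x y : ℝ) ^ p

/-- a Turán (3,4)-graph: all members of `H` are triples, and every four vertices contain one -/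
def IsTuran34 {n : ℕ} (H : Finset (Finset (Fin n))) : Prop :=
  (∀ e ∈ H, e.card = 3) ∧ ∀ S : Finset (Fin n), S.card = 4 → ∃ e ∈ H, e ⊆ S

/-- the limit density `(1 + 2^(p+1)) / 3^(p+1)` of Turán's construction -/
noncomputable def turanConst (p : ℝ) : ℝ := (1 + (2 : ℝ) ^ (p + 1)) / (3 : ℝ) ^ (p + 1)

/-- the admissible error rates: the density of the first configuration; the density of the second
configuration plus `1 / n`; for every graph `L` on four vertices the density of the labelled induced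
copies of `L` in the links plus `10 / n`; and the defect of the second moment of the codegrees,
`(1/3 - pairSum H 2 / n^4) / 144` (`1/3` is its value in Turán's construction) -/
def IsRate {n : ℕ} (H : Finset (Finset (Fin n))) (ε : ℝ) : Prop :=
  ε = (copies H A₁ {2, 4, 5} : ℝ) / (n : ℝ) ^ 6 ∨
  ε = (copies H A₂ {0, 4, 5} : ℝ) / (n : ℝ) ^ 6 + 1 / (n : ℝ) ∨
  (∃ L : SimpleGraph (Fin 4), ε = (linkCopies H L : ℝ) / (n : ℝ) ^ 5 + 10 / (n : ℝ)) ∨
  ε = (1 / 3 - pairSum H 2 / (n : ℝ) ^ 4) / 144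

/-! ### the upper bound -/

theorem triples : ∀ t : Finset (Fin 6), t.card = 3 → t ∈ ({{0, 1, 2}, {0, 1, 3}, {0, 1, 4}, {0, 1, 5}, {0, 2, 3}, {0, 2, 4}, {0, 2, 5}, {0, 3, 4}, {0, 3, 5}, {0, 4, 5}, {1, 2, 3}, {1, 2, 4}, {1, 2, 5}, {1, 3, 4}, {1, 3, 5}, {1, 4, 5}, {2, 3, 4}, {2, 3, 5}, {2, 4, 5}, {3, 4, 5}} : Finset (Finset (Fin 6))) := by
  decide +kernel

theorem img {n : ℕ} (x : Fin 6 → Fin n) (a b c : Fin 6) :
    ({a, b, c} : Finset (Fin 6)).image x = {x a, x b, x c} := by
  rw [Finset.image_insert, Finset.image_insert, Finset.image_singleton]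

theorem IV_le {n : ℕ} (H : Finset (Finset (Fin n))) (x : Fin 6 → Fin n)
    (h : Pool.Agent.H6Turan.A.IV (gH H) (x 0) (x 1) (x 2) (x 3) (x 4) (x 5) ≠ 0) :
    IsCopy H A₁ {2, 4, 5} x := by
  have hp : Pool.Agent.H6Turan.A.patB (gH H (x 0) (x 1) (x 2)) (gH H (x 0) (x 1) (x 3)) (gH H (x 0) (x 2) (x 3))
      (gH H (x 1) (x 2) (x 3)) (gH H (x 0) (x 1) (x 4)) (gH H (x 0) (x 2) (x 4))
      (gH H (x 1) (x 2) (x 4)) (gH H (x 0) (x 3) (x 4)) (gH H (x 1) (x 3) (x 4))
      (gH H (x 2) (x 3) (x 4)) (gH H (x 0) (x 1) (x 5)) (gH H (x 0) (x 2) (x 5))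
      (gH H (x 1) (x 2) (x 5)) (gH H (x 0) (x 3) (x 5)) (gH H (x 1) (x 3) (x 5))
      (gH H (x 2) (x 3) (x 5)) (gH H (x 0) (x 4) (x 5)) (gH H (x 1) (x 4) (x 5))
      (gH H (x 2) (x 4) (x 5)) (gH H (x 3) (x 4) (x 5)) = true := by
    unfold Pool.Agent.H6Turan.A.IV at h
    by_contra hne
    rw [Bool.not_eq_true] at hne
    rw [hne] at h
    exact h rfl
  unfold Pool.Agent.H6Turan.A.patB at hp
  simp only [Bool.and_eq_true] at hp
  obtain ⟨t012, t013, t023, t123, t014, t024, t124, t034, t134, t234, t015, t025, t125, t035, t135, t235, t045, t145, t345⟩ := hp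
  obtain ⟨n01, n02, n12, m012⟩ := gH_one.mp (Nat.eq_of_beq_eq_true t012)
  obtain ⟨-, n03, n13, m013⟩ := gH_one.mp (Nat.eq_of_beq_eq_true t013)
  obtain ⟨-, -, n23, m023⟩ := gH_one.mp (Nat.eq_of_beq_eq_true t023)
  obtain ⟨-, n04, n14, m014⟩ := gH_one.mp (Nat.eq_of_beq_eq_true t014)
  obtain ⟨-, -, n24, m124⟩ := gH_one.mp (Nat.eq_of_beq_eq_true t124)
  obtain ⟨-, -, n34, m134⟩ := gH_one.mp (Nat.eq_of_beq_eq_true t134)
  obtain ⟨-, -, -, m234⟩ := gH_one.mp (Nat.eq_of_beq_eq_true t234)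
  obtain ⟨-, n05, n15, m015⟩ := gH_one.mp (Nat.eq_of_beq_eq_true t015)
  obtain ⟨-, -, n25, m125⟩ := gH_one.mp (Nat.eq_of_beq_eq_true t125)
  obtain ⟨-, -, n35, m135⟩ := gH_one.mp (Nat.eq_of_beq_eq_true t135)
  obtain ⟨-, -, -, m235⟩ := gH_one.mp (Nat.eq_of_beq_eq_true t235)
  obtain ⟨-, -, n45, m045⟩ := gH_one.mp (Nat.eq_of_beq_eq_true t045)
  have zero : ∀ a b c : Fin n, a ≠ b → a ≠ c → b ≠ c → Nat.beq (gH H a b c) 0 = true →
      ({a, b, c} : Finset (Fin n)) ∈ H := by
    intro a b c hab hac hbc h0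
    replace h0 := Nat.eq_of_beq_eq_true h0
    by_contra hn
    rw [gH_one.mpr ⟨hab, hac, hbc, hn⟩] at h0
    exact absurd h0 (by norm_num)
  refine ⟨?_, ?_⟩
  · intro i j hij
    fin_cases i <;> fin_cases j <;> first
      | rfl
      | (exfalso; first
          | exact n01 hij | exact n01 hij.symm
          | exact n02 hij | exact n02 hij.symm
          | exact n03 hij | exact n03 hij.symm
          | exact n04 hij | exact n04 hij.symm
          | exact n05 hij | exact n05 hij.symm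
          | exact n12 hij | exact n12 hij.symm
          | exact n13 hij | exact n13 hij.symm
          | exact n14 hij | exact n14 hij.symm
          | exact n15 hij | exact n15 hij.symm
          | exact n23 hij | exact n23 hij.symm
          | exact n24 hij | exact n24 hij.symm
          | exact n25 hij | exact n25 hij.symm
          | exact n34 hij | exact n34 hij.symm
          | exact n35 hij | exact n35 hij.symm
          | exact n45 hij | exact n45 hij.symm)
  · intro t ht hf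
    have h20 := triples t ht
    simp only [Finset.mem_insert, Finset.mem_singleton] at h20
    rcases h20 with rfl | rfl | rfl | rfl | rfl | rfl | rfl | rfl | rfl | rfl | rfl | rfl | rfl | rfl | rfl | rfl | rfl | rfl | rfl | rfl
    · rw [img]
      exact iff_of_false m012 (by decide)
    · rw [img]
      exact iff_of_false m013 (by decide)
    · rw [img]
      exact iff_of_false m014 (by decide)
    · rw [img]
      exact iff_of_false m015 (by decide)
    · rw [img]
      exact iff_of_false m023 (by decide)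
    · rw [img]
      exact iff_of_true (zero _ _ _ n02 n04 n24 t024) (by decide)
    · rw [img]
      exact iff_of_true (zero _ _ _ n02 n05 n25 t025) (by decide)
    · rw [img]
      exact iff_of_true (zero _ _ _ n03 n04 n34 t034) (by decide)
    · rw [img]
      exact iff_of_true (zero _ _ _ n03 n05 n35 t035) (by decide)
    · rw [img]
      exact iff_of_false m045 (by decide)
    · rw [img]
      exact iff_of_true (zero _ _ _ n12 n13 n23 t123) (by decide)
    · rw [img]
      exact iff_of_false m124 (by decide)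
    · rw [img]
      exact iff_of_false m125 (by decide)
    · rw [img]
      exact iff_of_false m134 (by decide)
    · rw [img]
      exact iff_of_false m135 (by decide)
    · rw [img]
      exact iff_of_true (zero _ _ _ n14 n15 n45 t145) (by decide)
    · rw [img]
      exact iff_of_false m234 (by decide)
    · rw [img]
      exact iff_of_false m235 (by decide)
    · exact absurd rfl hf
    · rw [img]
      exact iff_of_true (zero _ _ _ n34 n35 n45 t345) (by decide)

theorem NI_le {n : ℕ} (H : Finset (Finset (Fin n))) :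
    ∑ x : Fin 6 → Fin n, Pool.Agent.H6Turan.A.IV (gH H) (x 0) (x 1) (x 2) (x 3) (x 4) (x 5)
      ≤ copies H A₁ {2, 4, 5} := by
  classical
  unfold copies
  rw [Finset.card_filter]
  refine Finset.sum_le_sum (fun x _ => ?_)
  by_cases h : Pool.Agent.H6Turan.A.IV (gH H) (x 0) (x 1) (x 2) (x 3) (x 4) (x 5) = 0
  · rw [h]
    exact Nat.zero_le _
  · rw [if_pos (IV_le H x h)]
    unfold Pool.Agent.H6Turan.A.IV
    cases Pool.Agent.H6Turan.A.patB (gH H (x 0) (x 1) (x 2)) (gH H (x 0) (x 1) (x 3)) (gH H (x 0) (x 2) (x 3))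
      (gH H (x 1) (x 2) (x 3)) (gH H (x 0) (x 1) (x 4)) (gH H (x 0) (x 2) (x 4))
      (gH H (x 1) (x 2) (x 4)) (gH H (x 0) (x 3) (x 4)) (gH H (x 1) (x 3) (x 4))
      (gH H (x 2) (x 3) (x 4)) (gH H (x 0) (x 1) (x 5)) (gH H (x 0) (x 2) (x 5))
      (gH H (x 1) (x 2) (x 5)) (gH H (x 0) (x 3) (x 5)) (gH H (x 1) (x 3) (x 5))
      (gH H (x 2) (x 3) (x 5)) (gH H (x 0) (x 4) (x 5)) (gH H (x 1) (x 4) (x 5))
      (gH H (x 2) (x 4) (x 5)) (gH H (x 3) (x 4) (x 5))
    · exact Nat.zero_le _
    · exact le_refl _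

theorem TF_le {n : ℕ} (H : Finset (Finset (Fin n))) (x : Fin 6 → Fin n) (n45 : x 4 ≠ x 5)
    (h : P2.TF (gH H) x ≠ 0) : IsCopy H A₂ {0, 4, 5} x := by
  have hp : P2.patB (gH H (x 0) (x 1) (x 2)) (gH H (x 0) (x 1) (x 3)) (gH H (x 0) (x 2) (x 3))
      (gH H (x 1) (x 2) (x 3)) (gH H (x 0) (x 1) (x 4)) (gH H (x 0) (x 2) (x 4))
      (gH H (x 1) (x 2) (x 4)) (gH H (x 0) (x 3) (x 4)) (gH H (x 1) (x 3) (x 4))
      (gH H (x 2) (x 3) (x 4)) (gH H (x 0) (x 1) (x 5)) (gH H (x 0) (x 2) (x 5))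
      (gH H (x 1) (x 2) (x 5)) (gH H (x 0) (x 3) (x 5)) (gH H (x 1) (x 3) (x 5))
      (gH H (x 2) (x 3) (x 5)) (gH H (x 0) (x 4) (x 5)) (gH H (x 1) (x 4) (x 5))
      (gH H (x 2) (x 4) (x 5)) (gH H (x 3) (x 4) (x 5)) = true := by
    unfold P2.TF at h
    by_contra hne
    rw [Bool.not_eq_true] at hne
    rw [hne] at h
    exact h rfl
  unfold P2.patB at hp
  simp only [Bool.and_eq_true] at hp
  obtain ⟨t012, t013, t023, t123, t014, t024, t124, t034, t134, t234, t015, t025, t125, t035, t135, t235, t145, t245, t345⟩ := hp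
  obtain ⟨n02, n03, n23, m023⟩ := gH_one.mp (Nat.eq_of_beq_eq_true t023)
  obtain ⟨n12, n13, -, m123⟩ := gH_one.mp (Nat.eq_of_beq_eq_true t123)
  obtain ⟨n01, n04, n14, m014⟩ := gH_one.mp (Nat.eq_of_beq_eq_true t014)
  obtain ⟨-, -, n24, m024⟩ := gH_one.mp (Nat.eq_of_beq_eq_true t024)
  obtain ⟨-, -, -, m124⟩ := gH_one.mp (Nat.eq_of_beq_eq_true t124)
  obtain ⟨-, -, n34, m034⟩ := gH_one.mp (Nat.eq_of_beq_eq_true t034)
  obtain ⟨-, -, -, m134⟩ := gH_one.mp (Nat.eq_of_beq_eq_true t134)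
  obtain ⟨-, n05, n15, m015⟩ := gH_one.mp (Nat.eq_of_beq_eq_true t015)
  obtain ⟨-, -, n25, m025⟩ := gH_one.mp (Nat.eq_of_beq_eq_true t025)
  obtain ⟨-, -, -, m125⟩ := gH_one.mp (Nat.eq_of_beq_eq_true t125)
  obtain ⟨-, -, n35, m035⟩ := gH_one.mp (Nat.eq_of_beq_eq_true t035)
  obtain ⟨-, -, -, m135⟩ := gH_one.mp (Nat.eq_of_beq_eq_true t135)
  have zero : ∀ a b c : Fin n, a ≠ b → a ≠ c → b ≠ c → Nat.beq (gH H a b c) 0 = true →
      ({a, b, c} : Finset (Fin n)) ∈ H := by
    intro a b c hab hac hbc h0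
    replace h0 := Nat.eq_of_beq_eq_true h0
    by_contra hn
    rw [gH_one.mpr ⟨hab, hac, hbc, hn⟩] at h0
    exact absurd h0 (by norm_num)
  refine ⟨?_, ?_⟩
  · intro i j hij
    fin_cases i <;> fin_cases j <;> first
      | rfl
      | (exfalso; first
          | exact n01 hij | exact n01 hij.symm
          | exact n02 hij | exact n02 hij.symm
          | exact n03 hij | exact n03 hij.symm
          | exact n04 hij | exact n04 hij.symm
          | exact n05 hij | exact n05 hij.symm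
          | exact n12 hij | exact n12 hij.symm
          | exact n13 hij | exact n13 hij.symm
          | exact n14 hij | exact n14 hij.symm
          | exact n15 hij | exact n15 hij.symm
          | exact n23 hij | exact n23 hij.symm
          | exact n24 hij | exact n24 hij.symm
          | exact n25 hij | exact n25 hij.symm
          | exact n34 hij | exact n34 hij.symm
          | exact n35 hij | exact n35 hij.symm
          | exact n45 hij | exact n45 hij.symm)
  · intro t ht hf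
    have h20 := triples t ht
    simp only [Finset.mem_insert, Finset.mem_singleton] at h20
    rcases h20 with rfl | rfl | rfl | rfl | rfl | rfl | rfl | rfl | rfl | rfl | rfl | rfl | rfl | rfl | rfl | rfl | rfl | rfl | rfl | rfl
    · rw [img]
      exact iff_of_true (zero _ _ _ n01 n02 n12 t012) (by decide)
    · rw [img]
      exact iff_of_true (zero _ _ _ n01 n03 n13 t013) (by decide)
    · rw [img]
      exact iff_of_false m014 (by decide)
    · rw [img]
      exact iff_of_false m015 (by decide)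
    · rw [img]
      exact iff_of_false m023 (by decide)
    · rw [img]
      exact iff_of_false m024 (by decide)
    · rw [img]
      exact iff_of_false m025 (by decide)
    · rw [img]
      exact iff_of_false m034 (by decide)
    · rw [img]
      exact iff_of_false m035 (by decide)
    · exact absurd rfl hf
    · rw [img]
      exact iff_of_false m123 (by decide)
    · rw [img]
      exact iff_of_false m124 (by decide)
    · rw [img]
      exact iff_of_false m125 (by decide)
    · rw [img]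
      exact iff_of_false m134 (by decide)
    · rw [img]
      exact iff_of_false m135 (by decide)
    · rw [img]
      exact iff_of_true (zero _ _ _ n14 n15 n45 t145) (by decide)
    · rw [img]
      exact iff_of_true (zero _ _ _ n23 n24 n34 t234) (by decide)
    · rw [img]
      exact iff_of_true (zero _ _ _ n23 n25 n35 t235) (by decide)
    · rw [img]
      exact iff_of_true (zero _ _ _ n24 n25 n45 t245) (by decide)
    · rw [img]
      exact iff_of_true (zero _ _ _ n34 n35 n45 t345) (by decide)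

theorem card_coincide {n : ℕ} (i j : Fin 6) (hij : i ≠ j) :
    (Finset.univ.filter (fun x : Fin 6 → Fin n => x i = x j)).card ≤ n ^ 5 := by
  have hc : (Finset.univ : Finset (Fin 5 → Fin n)).card = n ^ 5 := by
    rw [Finset.card_univ, Fintype.card_fun, Fintype.card_fin, Fintype.card_fin]
  rw [← hc]
  refine Finset.card_le_card_of_injOn (fun x k => x (j.succAbove k))
    (fun _ _ => Finset.mem_coe.mpr (Finset.mem_univ _)) ?_
  intro x hx y hy hxy
  rw [Finset.mem_coe, Finset.mem_filter] at hx hy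
  have h1 : ∀ k, k ≠ j → x k = y k := by
    intro k hk
    obtain ⟨k', rfl⟩ := Fin.exists_succAbove_eq hk
    exact congrFun hxy k'
  funext k
  by_cases hk : k = j
  · rw [hk, ← hx.2, ← hy.2]
    exact h1 i hij
  · exact h1 k hk

theorem NP_le {n : ℕ} (H : Finset (Finset (Fin n))) :
    ∑ x : Fin 6 → Fin n, P2.TF (gH H) x ≤ copies H A₂ {0, 4, 5} + n ^ 5 := by
  classical
  refine le_trans ?_ (Nat.add_le_add_left (card_coincide (n := n) 4 5 (by decide)) _)
  unfold copies
  rw [Finset.card_filter, Finset.card_filter, ← Finset.sum_add_distrib]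
  refine Finset.sum_le_sum (fun x _ => ?_)
  have h1 : P2.TF (gH H) x ≤ 1 := by
    unfold P2.TF
    cases P2.patB (gH H (x 0) (x 1) (x 2)) (gH H (x 0) (x 1) (x 3)) (gH H (x 0) (x 2) (x 3))
      (gH H (x 1) (x 2) (x 3)) (gH H (x 0) (x 1) (x 4)) (gH H (x 0) (x 2) (x 4))
      (gH H (x 1) (x 2) (x 4)) (gH H (x 0) (x 3) (x 4)) (gH H (x 1) (x 3) (x 4))
      (gH H (x 2) (x 3) (x 4)) (gH H (x 0) (x 1) (x 5)) (gH H (x 0) (x 2) (x 5))
      (gH H (x 1) (x 2) (x 5)) (gH H (x 0) (x 3) (x 5)) (gH H (x 1) (x 3) (x 5))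
      (gH H (x 2) (x 3) (x 5)) (gH H (x 0) (x 4) (x 5)) (gH H (x 1) (x 4) (x 5))
      (gH H (x 2) (x 4) (x 5)) (gH H (x 3) (x 4) (x 5))
    · exact Nat.zero_le _
    · exact le_refl _
  by_cases h : P2.TF (gH H) x = 0
  · rw [h]
    exact Nat.zero_le _
  · by_cases h45 : x 4 = x 5
    · rw [if_pos h45]
      exact le_trans h1 (Nat.le_add_left _ _)
    · rw [if_pos (TF_le H x h45 h)]
      exact le_trans h1 (Nat.le_add_right _ _)

theorem cdg_gH {n : ℕ} (H : Finset (Finset (Fin n))) (x y : Fin n) :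
    cdg (gH H) x y = if x = y then 0 else codeg H x y := by
  unfold cdg codeg
  by_cases h : x = y
  · rw [if_pos h]
    refine Finset.sum_eq_zero (fun z _ => ?_)
    unfold gH
    rw [if_neg (fun h' => h'.1 h)]
  · rw [if_neg h, Finset.card_filter]
    refine Finset.sum_congr rfl (fun z _ => ?_)
    unfold gH
    by_cases h' : z ≠ x ∧ z ≠ y ∧ ({x, y, z} : Finset (Fin n)) ∉ H
    · rw [if_pos h', if_pos ⟨h, h'.1.symm, h'.2.1.symm, h'.2.2⟩]
    · rw [if_neg h', if_neg (fun h'' => h' ⟨h''.2.1.symm, h''.2.2.1.symm, h''.2.2.2⟩)]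

theorem sum_xg {n : ℕ} (H : Finset (Finset (Fin n))) (hn : 0 < n) (p : ℝ) (hp : 0 < p) :
    ∑ x, ∑ y, xg (gH H) x y ^ p = (3 : ℝ) ^ p / (n : ℝ) ^ p * pairSum H p := by
  have hn' : (0 : ℝ) < (n : ℝ) := Nat.cast_pos.mpr hn
  unfold pairSum
  rw [Finset.mul_sum]
  refine Finset.sum_congr rfl (fun x _ => ?_)
  rw [Finset.mul_sum, ← Finset.add_sum_erase Finset.univ _ (Finset.mem_univ x)]
  have h0 : xg (gH H) x x ^ p = 0 := by
    unfold xg
    rw [cdg_gH, if_pos rfl]
    simp only [Nat.cast_zero, mul_zero, zero_div]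
    exact Real.zero_rpow hp.ne'
  rw [h0, zero_add]
  refine Finset.sum_congr rfl (fun y hy => ?_)
  have hxy : x ≠ y := (Finset.ne_of_mem_erase hy).symm
  unfold xg
  rw [cdg_gH, if_neg hxy, Fintype.card_fin, Real.div_rpow (by positivity) hn'.le,
    Real.mul_rpow (by norm_num) (by positivity)]
  ring

/-! ### copies in the links -/

/-- `1` for non-adjacent pairs -/
noncomputable def nb (L : SimpleGraph (Fin 4)) (i j : Fin 4) : ℕ := by
  classical exact if L.Adj i j then 0 else 1

theorem nb_zero {L : SimpleGraph (Fin 4)} {i j : Fin 4} : nb L i j = 0 ↔ L.Adj i j := by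
  unfold nb
  by_cases h : L.Adj i j
  · simp [h]
  · simp [h]

theorem nb_bit (L : SimpleGraph (Fin 4)) (i j : Fin 4) : nb L i j = 0 ∨ nb L i j = 1 := by
  unfold nb
  by_cases h : L.Adj i j
  · simp [h]
  · simp [h]

theorem nb_symm (L : SimpleGraph (Fin 4)) (i j : Fin 4) : nb L i j = nb L j i := by
  rcases nb_bit L i j with h | h <;> rcases nb_bit L j i with h' | h'
  · rw [h, h']
  · exact absurd (nb_zero.mpr (nb_zero.mp h).symm) (by omega)
  · exact absurd (nb_zero.mpr (nb_zero.mp h').symm) (by omega)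
  · rw [h, h']

/-- every graph on four vertices is isomorphic to one of the eleven -/
theorem classify : ∀ b0 b1 b2 b3 b4 b5 : Fin 2, ∃ ρ : Equiv.Perm (Fin 4),
    pcode (Bm b0 b1 b2 b3 b4 b5) ρ ∈ codes11 := by
  decide +kernel

theorem exists_code (L : SimpleGraph (Fin 4)) : ∃ ρ : Equiv.Perm (Fin 4), ∃ c ∈ codes11,
    ix6 (nb L (ρ 0) (ρ 1)) (nb L (ρ 0) (ρ 2)) (nb L (ρ 1) (ρ 2)) (nb L (ρ 0) (ρ 3))
      (nb L (ρ 1) (ρ 3)) (nb L (ρ 2) (ρ 3)) = c := by
  have hlt : ∀ i j, nb L i j < 2 := by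
    intro i j
    rcases nb_bit L i j with h | h <;> omega
  obtain ⟨ρ, hρ⟩ := classify ⟨nb L 0 1, hlt _ _⟩ ⟨nb L 0 2, hlt _ _⟩ ⟨nb L 1 2, hlt _ _⟩
    ⟨nb L 0 3, hlt _ _⟩ ⟨nb L 1 3, hlt _ _⟩ ⟨nb L 2 3, hlt _ _⟩
  have key : ∀ i j : Fin 4, i ≠ j → Bm (nb L 0 1) (nb L 0 2) (nb L 1 2) (nb L 0 3) (nb L 1 3)
      (nb L 2 3) i j = nb L i j := by
    intro i j h
    fin_cases i <;> fin_cases j <;> first
      | exact absurd rfl h
      | rfl
      | exact nb_symm L _ _
  have ne : ∀ i j : Fin 4, i ≠ j → ρ i ≠ ρ j := fun i j h h' => h (ρ.injective h')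
  refine ⟨ρ, _, hρ, ?_⟩
  unfold pcode
  simp only []
  rw [key _ _ (ne 0 1 (by decide)), key _ _ (ne 0 2 (by decide)), key _ _ (ne 1 2 (by decide)),
    key _ _ (ne 0 3 (by decide)), key _ _ (ne 1 3 (by decide)), key _ _ (ne 2 3 (by decide))]

theorem ix6_eq (u0 u1 u2 u3 u4 u5 : ℕ) :
    ix6 u0 u1 u2 u3 u4 u5 = u0 + 2 * (u1 + 2 * (u2 + 2 * (u3 + 2 * (u4 + 2 * u5)))) := by
  simp only [ix6, Nat.add_eq, Nat.mul_eq]
  ring

theorem bit_step {u v a b : ℕ} (hu : u = 0 ∨ u = 1) (hv : v = 0 ∨ v = 1)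
    (h : u + 2 * a = v + 2 * b) : u = v ∧ a = b := by omega

theorem ix6_inj {u0 u1 u2 u3 u4 u5 v0 v1 v2 v3 v4 v5 : ℕ}
    (a0 : u0 = 0 ∨ u0 = 1) (a1 : u1 = 0 ∨ u1 = 1) (a2 : u2 = 0 ∨ u2 = 1) (a3 : u3 = 0 ∨ u3 = 1)
    (a4 : u4 = 0 ∨ u4 = 1) (c0 : v0 = 0 ∨ v0 = 1) (c1 : v1 = 0 ∨ v1 = 1)
    (c2 : v2 = 0 ∨ v2 = 1) (c3 : v3 = 0 ∨ v3 = 1) (c4 : v4 = 0 ∨ v4 = 1)
    (h : ix6 u0 u1 u2 u3 u4 u5 = ix6 v0 v1 v2 v3 v4 v5) :
    u0 = v0 ∧ u1 = v1 ∧ u2 = v2 ∧ u3 = v3 ∧ u4 = v4 ∧ u5 = v5 := by
  rw [ix6_eq, ix6_eq] at h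
  obtain ⟨r0, h⟩ := bit_step a0 c0 h
  obtain ⟨r1, h⟩ := bit_step a1 c1 h
  obtain ⟨r2, h⟩ := bit_step a2 c2 h
  obtain ⟨r3, h⟩ := bit_step a3 c3 h
  obtain ⟨r4, h⟩ := bit_step a4 c4 h
  exact ⟨r0, r1, r2, r3, r4, h⟩

/-- the first five vertices are distinct -/
def D5 {n : ℕ} (x : Fin 6 → Fin n) : Prop := ∀ i j : Fin 5, i ≠ j → x i.castSucc ≠ x j.castSucc

open Classical in
theorem card_not_D5 (n : ℕ) :
    (Finset.univ.filter (fun x : Fin 6 → Fin n => ¬ D5 x)).card ≤ 10 * n ^ 5 := by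
  set P : Finset (Fin 5 × Fin 5) := Finset.univ.filter (fun q => q.1 < q.2) with hP
  have hPc : P.card = 10 := by
    rw [hP]
    decide
  have hsub : Finset.univ.filter (fun x : Fin 6 → Fin n => ¬ D5 x)
      ⊆ P.biUnion (fun q => Finset.univ.filter
        (fun x : Fin 6 → Fin n => x q.1.castSucc = x q.2.castSucc)) := by
    intro x hx
    rw [Finset.mem_filter] at hx
    have h := hx.2
    unfold D5 at h
    push Not at h
    obtain ⟨i, j, hij, he⟩ := h
    rw [Finset.mem_biUnion]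
    rcases lt_or_gt_of_ne hij with h' | h'
    · exact ⟨(i, j), by rw [hP, Finset.mem_filter]; exact ⟨Finset.mem_univ _, h'⟩,
        by rw [Finset.mem_filter]; exact ⟨Finset.mem_univ _, he⟩⟩
    · exact ⟨(j, i), by rw [hP, Finset.mem_filter]; exact ⟨Finset.mem_univ _, h'⟩,
        by rw [Finset.mem_filter]; exact ⟨Finset.mem_univ _, he.symm⟩⟩
  refine le_trans (Finset.card_le_card hsub) (le_trans Finset.card_biUnion_le ?_)
  rw [← hPc, ← smul_eq_mul, ← Finset.sum_const]
  refine Finset.sum_le_sum (fun q hq => ?_)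
  rw [hP, Finset.mem_filter] at hq
  refine card_coincide _ _ (fun h => ?_)
  exact absurd (Fin.castSucc_injective _ h) (ne_of_lt hq.2)

theorem TL_sum_le {n : ℕ} (H : Finset (Finset (Fin n))) (L : SimpleGraph (Fin 4))
    (ρ : Equiv.Perm (Fin 4)) (c : ℕ)
    (hc : ix6 (nb L (ρ 0) (ρ 1)) (nb L (ρ 0) (ρ 2)) (nb L (ρ 1) (ρ 2)) (nb L (ρ 0) (ρ 3))
      (nb L (ρ 1) (ρ 3)) (nb L (ρ 2) (ρ 3)) = c) :
    ∑ x : Fin 6 → Fin n, TL c (gH H) x ≤ n * linkCopies H L + 10 * n ^ 5 := by
  classical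
  have h1 : ∑ x : Fin 6 → Fin n, TL c (gH H) x
      ≤ (Finset.univ.filter (fun x : Fin 6 → Fin n => TL c (gH H) x = 1)).card := by
    rw [Finset.card_filter]
    refine Finset.sum_le_sum (fun x _ => ?_)
    have : TL c (gH H) x = 0 ∨ TL c (gH H) x = 1 := by
      unfold TL
      cases Nat.beq (lk (gH H) (x 0) (x 1) (x 2) (x 3) (x 4)) c
      · exact Or.inl rfl
      · exact Or.inr rfl
    rcases this with h | h
    · rw [h]
      exact Nat.zero_le _
    · rw [h, if_pos rfl]
  have h2 : (Finset.univ.filter (fun x : Fin 6 → Fin n => TL c (gH H) x = 1)).card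
      ≤ (Finset.univ.filter (fun x : Fin 6 → Fin n => TL c (gH H) x = 1 ∧ D5 x)).card
        + (Finset.univ.filter (fun x : Fin 6 → Fin n => ¬ D5 x)).card := by
    refine le_trans (Finset.card_le_card ?_) (Finset.card_union_le _ _)
    intro x hx
    rw [Finset.mem_filter] at hx
    rw [Finset.mem_union, Finset.mem_filter, Finset.mem_filter]
    by_cases h : D5 x
    · exact Or.inl ⟨Finset.mem_univ _, hx.2, h⟩
    · exact Or.inr ⟨Finset.mem_univ _, h⟩
  have h3 : (Finset.univ.filter (fun x : Fin 6 → Fin n => TL c (gH H) x = 1 ∧ D5 x)).card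
      ≤ n * linkCopies H L := by
    have hcard : ((Finset.univ : Finset (Fin n)) ×ˢ
        (Finset.univ.filter (fun y : Fin n × (Fin 4 → Fin n) => IsLinkCopy H L y.1 y.2))).card
        = n * linkCopies H L := by
      rw [Finset.card_product, Finset.card_univ, Fintype.card_fin]
      rfl
    rw [← hcard]
    refine Finset.card_le_card_of_injOn
      (fun x => (x 5, (x 0, fun i => x (ps (ρ.symm i))))) ?_ ?_
    · intro x hx
      rw [Finset.mem_coe, Finset.mem_filter] at hx
      obtain ⟨-, hT, hD⟩ := hx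
      rw [Finset.mem_coe, Finset.mem_product, Finset.mem_filter]
      refine ⟨Finset.mem_univ _, Finset.mem_univ _, ?_⟩
      have hps : ∀ i j : Fin 4, i ≠ j → x (ps i) ≠ x (ps j) := by
        intro i j hij
        exact hD i.succ j.succ (fun h => hij (Fin.succ_injective _ h))
      have hps0 : ∀ i : Fin 4, x (ps i) ≠ x 0 := fun i => hD i.succ 0 (Fin.succ_ne_zero i)
      have hlk : lk (gH H) (x 0) (x 1) (x 2) (x 3) (x 4) = c := by
        unfold TL at hT
        by_contra hne
        have : Nat.beq (lk (gH H) (x 0) (x 1) (x 2) (x 3) (x 4)) c = false := by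
          rw [Bool.eq_false_iff]
          intro h
          exact hne (Nat.eq_of_beq_eq_true h)
        rw [this] at hT
        exact absurd hT (by decide)
      unfold lk at hlk
      rw [← hc] at hlk
      have gb := gH_bit H
      have lb := nb_bit L
      obtain ⟨e01, e02, e12, e03, e13, e23⟩ := ix6_inj (gb _ _ _) (gb _ _ _) (gb _ _ _) (gb _ _ _)
        (gb _ _ _) (lb _ _) (lb _ _) (lb _ _) (lb _ _) (lb _ _) hlk
      have hg := gH_symm H
      have key : ∀ a b : Fin 4, a ≠ b →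
          gH H (x 0) (x (ps a)) (x (ps b)) = nb L (ρ a) (ρ b) := by
        have flip : ∀ a b : Fin 4, gH H (x 0) (x (ps a)) (x (ps b)) = nb L (ρ a) (ρ b) →
            gH H (x 0) (x (ps b)) (x (ps a)) = nb L (ρ b) (ρ a) := by
          intro a b h
          rw [hg.s23 (x 0) (x (ps a)) (x (ps b)), h, nb_symm]
        intro a b hab
        fin_cases a <;> fin_cases b
        · exact absurd rfl hab
        · exact e01
        · exact e02
        · exact e03
        · exact flip 0 1 e01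
        · exact absurd rfl hab
        · exact e12
        · exact e13
        · exact flip 0 2 e02
        · exact flip 1 2 e12
        · exact absurd rfl hab
        · exact e23
        · exact flip 0 3 e03
        · exact flip 1 3 e13
        · exact flip 2 3 e23
        · exact absurd rfl hab
      have key2 : ∀ i j : Fin 4, i ≠ j →
          (({x 0, x (ps (ρ.symm i)), x (ps (ρ.symm j))} : Finset (Fin n)) ∈ H ↔ L.Adj i j) := by
        intro i j hij
        have hne : ρ.symm i ≠ ρ.symm j := fun h => hij (ρ.symm.injective h)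
        have hk := key _ _ hne
        rw [Equiv.apply_symm_apply, Equiv.apply_symm_apply] at hk
        rw [← nb_zero, ← hk]
        constructor
        · intro hm
          rcases gb (x 0) (x (ps (ρ.symm i))) (x (ps (ρ.symm j))) with h | h
          · exact h
          · exact absurd hm (gH_one.mp h).2.2.2
        · intro h0
          by_contra hm
          have := gH_one.mpr ⟨(hps0 (ρ.symm i)).symm, (hps0 (ρ.symm j)).symm, hps _ _ hne, hm⟩
          rw [this] at h0
          exact absurd h0 (by norm_num)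
      refine ⟨?_, fun i => hps0 _, key2⟩
      intro i j hij
      by_contra hne
      exact hps _ _ (fun h => hne (ρ.symm.injective h)) hij
    · intro x _ y _ hxy
      have a5 : x 5 = y 5 := congrArg (fun t : Fin n × (Fin n × (Fin 4 → Fin n)) => t.1) hxy
      have a0 : x 0 = y 0 := congrArg (fun t : Fin n × (Fin n × (Fin 4 → Fin n)) => t.2.1) hxy
      have a : ∀ k : Fin 4, x (ps k) = y (ps k) := by
        intro k
        have := congrFun (congrArg (fun t : Fin n × (Fin n × (Fin 4 → Fin n)) => t.2.2) hxy) (ρ k)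
        simp only [Equiv.symm_apply_apply] at this
        exact this
      funext k
      fin_cases k
      · exact a0
      · exact a 0
      · exact a 1
      · exact a 2
      · exact a 3
      · exact a5
  have h4 := card_not_D5 n
  have h5 : (Finset.univ.filter (fun x : Fin 6 → Fin n => ¬ D5 x)).card ≤ 10 * n ^ 5 := by
    convert h4
  omega

/-! ### the upper bound for the sums -/

theorem pairSum_eq {n : ℕ} (H : Finset (Finset (Fin n))) (hn : 0 < n) (p : ℝ) (hp : 0 < p) :
    pairSum H p = (n : ℝ) ^ p / (3 : ℝ) ^ p * ∑ x, ∑ y, xg (gH H) x y ^ p := by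
  have hn' : (0 : ℝ) < (n : ℝ) := Nat.cast_pos.mpr hn
  have h3p : (0 : ℝ) < (3 : ℝ) ^ p := Real.rpow_pos_of_pos (by norm_num) _
  have hnp : (0 : ℝ) < (n : ℝ) ^ p := Real.rpow_pos_of_pos hn' _
  rw [sum_xg H hn p hp]
  field_simp

theorem turan_eq {n : ℕ} (hn : 0 < n) (p : ℝ) :
    turanConst p * (n : ℝ) ^ (p + 2)
      = (n : ℝ) ^ p / (3 : ℝ) ^ p * ((1 + 2 * (2 : ℝ) ^ p) / 3 * (n : ℝ) ^ 2) := by
  have hn' : (0 : ℝ) < (n : ℝ) := Nat.cast_pos.mpr hn
  have h3p : (0 : ℝ) < (3 : ℝ) ^ p := Real.rpow_pos_of_pos (by norm_num) _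
  have a1 : (n : ℝ) ^ (p + 2) = (n : ℝ) ^ p * (n : ℝ) ^ 2 := by
    rw [Real.rpow_add hn']
    norm_num
  unfold turanConst
  have a2 : (2 : ℝ) ^ (p + 1) = 2 * (2 : ℝ) ^ p := by
    rw [Real.rpow_add_one (by norm_num)]
    ring
  have a3 : (3 : ℝ) ^ (p + 1) = (3 : ℝ) ^ p * 3 := by
    rw [Real.rpow_add_one (by norm_num)]
  rw [a1, a2, a3]
  field_simp

theorem upper_high {n : ℕ} (H : Finset (Finset (Fin n))) (hH : IsTuran34 H) (hn : 0 < n) (p : ℝ)
    (hp1 : 3 / 2 ≤ p) (hp2 : p ≤ 29 / 10) :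
    pairSum H p ≤ turanConst p * (n : ℝ) ^ (p + 2) := by
  have hn' : (0 : ℝ) < (n : ℝ) := Nat.cast_pos.mpr hn
  have hV : 0 < Fintype.card (Fin n) := by rwa [Fintype.card_fin]
  have hc : 0 ≤ (n : ℝ) ^ p / (3 : ℝ) ^ p := by positivity
  have hm := main_high (gH H) (gH_bit H) (gH_symm H) (gH_free H hH.1 hH.2) hV p hp1 hp2
  rw [Fintype.card_fin] at hm
  rw [pairSum_eq H hn p (by linarith), turan_eq hn]
  exact mul_le_mul_of_nonneg_left hm hc

theorem turanConst_two : turanConst 2 = 1 / 3 := by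
  unfold turanConst
  norm_num

theorem pairSum_two {n : ℕ} (H : Finset (Finset (Fin n))) :
    pairSum H 2 = ∑ x, ∑ y, (cdg (gH H) x y : ℝ) ^ 2 := by
  unfold pairSum
  refine Finset.sum_congr rfl (fun x _ => ?_)
  rw [← Finset.add_sum_erase Finset.univ (fun y => (cdg (gH H) x y : ℝ) ^ 2) (Finset.mem_univ x)]
  have h0 : (cdg (gH H) x x : ℝ) ^ 2 = 0 := by
    rw [cdg_gH, if_pos rfl]
    norm_num
  rw [h0, zero_add]
  refine Finset.sum_congr rfl (fun y hy => ?_)
  have hxy : x ≠ y := (Finset.ne_of_mem_erase hy).symm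
  rw [cdg_gH, if_neg hxy]
  norm_num

theorem EE_eq {n : ℕ} (H : Finset (Finset (Fin n))) :
    (EE (gH H) : ℝ) = ∑ x, ∑ y, (cdg (gH H) x y : ℝ) := by
  unfold EE cdg
  push_cast
  rfl

/-- the density inequality for each rate -/
theorem rate_bound {n : ℕ} (H : Finset (Finset (Fin n))) (hH : IsTuran34 H) (hn : 0 < n) (ε : ℝ)
    (hε : IsRate H ε) :
    0 ≤ ε ∧ 9 * ((n : ℝ) ^ 3 * (EE (gH H) : ℝ)) ≤ 5 * (n : ℝ) ^ 6 + 1296 * ((n : ℝ) ^ 6 * ε) := by
  have hn' : (0 : ℝ) < (n : ℝ) := Nat.cast_pos.mpr hn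
  have hnat : ∀ W : ℕ, 9 * ((Fintype.card (Fin n) : ℤ) ^ 3 * (EE (gH H) : ℤ))
      ≤ 5 * (Fintype.card (Fin n) : ℤ) ^ 6 + 1296 * (W : ℤ) → (W : ℝ) = (n : ℝ) ^ 6 * ε →
      0 ≤ ε ∧ 9 * ((n : ℝ) ^ 3 * (EE (gH H) : ℝ)) ≤ 5 * (n : ℝ) ^ 6
        + 1296 * ((n : ℝ) ^ 6 * ε) := by
    intro W h1 h2
    rw [Fintype.card_fin] at h1
    constructor
    · have h3 : 0 ≤ (n : ℝ) ^ 6 * ε := by
        rw [← h2]
        positivity
      exact nonneg_of_mul_nonneg_right h3 (by positivity)
    · rw [← h2]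
      exact_mod_cast h1
  rcases hε with hε | hε | ⟨L, hε⟩ | hε
  · refine hnat (copies H A₁ {2, 4, 5}) ?_ ?_
    · have h1 := Pool.Agent.H6Turan.A.main (gH H) (gH_bit H) (gH_symm H) (gH_free H hH.1 hH.2)
      have h2 : ((∑ x : Fin 6 → Fin n,
          Pool.Agent.H6Turan.A.IV (gH H) (x 0) (x 1) (x 2) (x 3) (x 4) (x 5) : ℕ) : ℤ)
          ≤ (copies H A₁ {2, 4, 5} : ℤ) := by exact_mod_cast NI_le H
      linarith
    · rw [hε]
      field_simp
  · refine hnat (copies H A₂ {0, 4, 5} + n ^ 5) ?_ ?_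
    · have h1 := P2.main (gH H) (gH_bit H) (gH_symm H) (gH_free H hH.1 hH.2)
      have h2 : ((∑ x : Fin 6 → Fin n, P2.TF (gH H) x : ℕ) : ℤ)
          ≤ ((copies H A₂ {0, 4, 5} + n ^ 5 : ℕ) : ℤ) := by exact_mod_cast NP_le H
      linarith
    · rw [hε]
      push_cast
      field_simp
  · obtain ⟨ρ, c, hc11, hcode⟩ := exists_code L
    refine hnat (n * linkCopies H L + 10 * n ^ 5) ?_ ?_
    · have h1 := all_links (gH H) (gH_bit H) (gH_symm H) (gH_free H hH.1 hH.2) c hc11
      have h2 : ((∑ x : Fin 6 → Fin n, TL c (gH H) x : ℕ) : ℤ)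
          ≤ ((n * linkCopies H L + 10 * n ^ 5 : ℕ) : ℤ) := by
        exact_mod_cast TL_sum_le H L ρ c hcode
      linarith
    · rw [hε]
      push_cast
      field_simp
  · constructor
    · have h1 := upper_high H hH hn 2 (by norm_num) (by norm_num)
      rw [turanConst_two] at h1
      have h2 : (n : ℝ) ^ ((2 : ℝ) + 2) = (n : ℝ) ^ 4 := by
        rw [← Real.rpow_natCast]
        norm_num
      rw [h2] at h1
      have h3 : pairSum H 2 / (n : ℝ) ^ 4 ≤ 1 / 3 := by
        rw [div_le_iff₀ (by positivity)]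
        exact h1
      rw [hε]
      apply div_nonneg _ (by norm_num)
      linarith
    · have h1 := Pool.Agent.H77Lp.L.main (gH H) (gH_bit H) (gH_symm H) (gH_free H hH.1 hH.2)
      rw [Fintype.card_fin] at h1
      have h2 : ∑ a, ∑ b, (36000000 * (n : ℝ) ^ 3 * (cdg (gH H) a b : ℝ)
          + 36000000 * (n : ℝ) ^ 2 * (cdg (gH H) a b : ℝ) ^ 2) ≤ 32000000 * (n : ℝ) ^ 6 := by
        have h3 : ((∑ a, ∑ b, (0 * (n : ℤ) ^ 4
            + 4 * 9000000 * (n : ℤ) ^ 3 * (∑ c, (gH H a b c : ℤ))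
            + 6 * 6000000 * (n : ℤ) ^ 2 * (∑ c, (gH H a b c : ℤ)) ^ 2
            + 4 * 0 * (n : ℤ) * (∑ c, (gH H a b c : ℤ)) ^ 3
            + 0 * (∑ c, (gH H a b c : ℤ)) ^ 4) : ℤ) : ℝ) ≤ ((32000000 * (n : ℤ) ^ 6 : ℤ) : ℝ) := by
          exact_mod_cast h1
        push_cast at h3
        refine le_trans (le_of_eq ?_) h3
        unfold cdg
        push_cast
        refine Finset.sum_congr rfl (fun a _ => Finset.sum_congr rfl (fun b _ => ?_))
        ring
      simp only [Finset.sum_add_distrib, ← Finset.mul_sum] at h2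
      rw [← EE_eq, ← pairSum_two] at h2
      rw [hε]
      have h4 : (n : ℝ) ^ 6 * ((1 / 3 - pairSum H 2 / (n : ℝ) ^ 4) / 144)
          = ((n : ℝ) ^ 6 / 3 - (n : ℝ) ^ 2 * pairSum H 2) / 144 := by
        field_simp
      rw [h4]
      linarith

theorem upper {n : ℕ} (H : Finset (Finset (Fin n))) (hH : IsTuran34 H) (p : ℝ) (hp1 : 1 ≤ p)
    (hp2 : p ≤ 29 / 10) (ε : ℝ) (hε : IsRate H ε) :
    pairSum H p ≤ turanConst p * (n : ℝ) ^ (p + 2)
      + if p < 3 / 2 then 144 * ε * (n : ℝ) ^ (p + 2) else 0 := by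
  rcases Nat.eq_zero_or_pos n with hn | hn
  · subst hn
    have e1 : pairSum H p = 0 := by
      unfold pairSum
      simp
    have e2 : ((0 : ℕ) : ℝ) ^ (p + 2) = 0 := by
      rw [Nat.cast_zero]
      exact Real.zero_rpow (by linarith)
    rw [e1, e2]
    simp
  have hn' : (0 : ℝ) < (n : ℝ) := Nat.cast_pos.mpr hn
  have hV : 0 < Fintype.card (Fin n) := by rwa [Fintype.card_fin]
  have hc : 0 ≤ (n : ℝ) ^ p / (3 : ℝ) ^ p := by positivity
  by_cases hp : p < 3 / 2
  · rw [if_pos hp]
    obtain ⟨h0, hW⟩ := rate_bound H hH hn ε hε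
    have hm := main_low (gH H) (gH_bit H) (gH_symm H) (gH_free H hH.1 hH.2) hV
      ((n : ℝ) ^ 6 * ε) (by positivity) (by rw [Fintype.card_fin]; exact hW) p hp1 hp.le
    rw [Fintype.card_fin] at hm
    have h1 := mul_le_mul_of_nonneg_left hm hc
    rw [pairSum_eq H hn p (by linarith), turan_eq hn]
    refine le_trans h1 (le_of_eq ?_)
    rw [mul_add]
    congr 1
    have a1 : (n : ℝ) ^ (p + 2) = (n : ℝ) ^ p * (n : ℝ) ^ 2 := by
      rw [Real.rpow_add hn']
      norm_num
    rw [a1]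
    field_simp
  · rw [if_neg hp, add_zero]
    exact upper_high H hH hn p (not_lt.mp hp) hp2

theorem choose_three (m : ℕ) :
    6 * ((m.choose 3 : ℕ) : ℝ) = (m : ℝ) * ((m : ℝ) - 1) * ((m : ℝ) - 2) := by
  induction m with
  | zero => simp
  | succ m ih =>
    rw [Nat.choose_succ_succ' m 2, Nat.cast_add, mul_add, ih, Nat.cast_choose_two]
    push_cast
    ring

/-- Turán's bound up to each of the rates -/
theorem turan_bound {n : ℕ} (H : Finset (Finset (Fin n))) (hH : IsTuran34 H) (ε : ℝ)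
    (hε : IsRate H ε) :
    4 / 9 * ((n.choose 3 : ℕ) : ℝ) ≤ (H.card : ℝ) + 5 / 18 * (n : ℝ) ^ 2 + 24 * ε * (n : ℝ) ^ 3 := by
  rcases Nat.eq_zero_or_pos n with hn | hn
  · subst hn
    simp
  have hn' : (0 : ℝ) < (n : ℝ) := Nat.cast_pos.mpr hn
  have hn3 : (0 : ℝ) < (n : ℝ) ^ 3 := by positivity
  obtain ⟨h0, hW⟩ := rate_bound H hH hn ε hε
  have hEE := EE_gH H
  have hEER : 6 * ((n.choose 3 : ℕ) : ℝ) ≤ (EE (gH H) : ℝ) + 6 * (H.card : ℝ) := by
    exact_mod_cast hEE
  have hch := choose_three n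
  have hE : 9 * (EE (gH H) : ℝ) ≤ 5 * (n : ℝ) ^ 3 + 1296 * ((n : ℝ) ^ 3 * ε) := by
    have e : (n : ℝ) ^ 3 * (9 * (EE (gH H) : ℝ))
        ≤ (n : ℝ) ^ 3 * (5 * (n : ℝ) ^ 3 + 1296 * ((n : ℝ) ^ 3 * ε)) := by
      have e6 : (n : ℝ) ^ 6 = (n : ℝ) ^ 3 * (n : ℝ) ^ 3 := by ring
      rw [e6] at hW
      linarith
    exact le_of_mul_le_mul_left e hn3
  nlinarith

/-! ### Turán's construction -/

/-- colour of a vertex -/
def col {n : ℕ} (v : Fin n) : ZMod 3 := ((v : ℕ) : ZMod 3)

open Classical in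
/-- Turán's construction: triples of one colour, and triples whose colours have sum `2` -/
noncomputable def tur (n : ℕ) : Finset (Finset (Fin n)) :=
  (Finset.univ.powersetCard 3).filter (fun e => (∑ v ∈ e, col v = 2) ∨ ∃ i, ∀ v ∈ e, col v = i)

theorem card_three {n : ℕ} {x y z : Fin n} (hxy : x ≠ y) (hxz : x ≠ z) (hyz : y ≠ z) :
    ({x, y, z} : Finset (Fin n)).card = 3 := by
  rw [Finset.card_insert_of_notMem, Finset.card_insert_of_notMem, Finset.card_singleton]
  · simpa using hyz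
  · simp [hxy, hxz]

/-- the colour condition -/
def inT (a b c : ZMod 3) : Prop := a + b + c = 2 ∨ (a = b ∧ b = c)

instance (a b c : ZMod 3) : Decidable (inT a b c) := by
  unfold inT
  infer_instance

theorem mem_tur {n : ℕ} {x y z : Fin n} (hxy : x ≠ y) (hxz : x ≠ z) (hyz : y ≠ z) :
    ({x, y, z} : Finset (Fin n)) ∈ tur n ↔ inT (col x) (col y) (col z) := by
  unfold tur inT
  rw [Finset.mem_filter, Finset.mem_powersetCard]
  have h1 : ∑ v ∈ ({x, y, z} : Finset (Fin n)), col v = col x + col y + col z := by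
    rw [Finset.sum_insert, Finset.sum_insert, Finset.sum_singleton, add_assoc]
    · simpa using hyz
    · simp [hxy, hxz]
  rw [h1]
  constructor
  · rintro ⟨-, h | ⟨i, h⟩⟩
    · exact Or.inl h
    · right
      rw [h x (by simp), h y (by simp), h z (by simp)]
      exact ⟨rfl, rfl⟩
  · intro h
    refine ⟨⟨Finset.subset_univ _, card_three hxy hxz hyz⟩, ?_⟩
    rcases h with h | ⟨h, h'⟩
    · exact Or.inl h
    · refine Or.inr ⟨col x, ?_⟩
      intro v hv
      simp only [Finset.mem_insert, Finset.mem_singleton] at hv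
      rcases hv with rfl | rfl | rfl
      · rfl
      · exact h.symm
      · rw [← h', ← h]

theorem four_colours : ∀ a b c d : ZMod 3,
    inT a b c ∨ inT a b d ∨ inT a c d ∨ inT b c d := by
  decide

theorem tur_isTuran (n : ℕ) : IsTuran34 (tur n) := by
  refine ⟨fun e he => ?_, fun S hS => ?_⟩
  · unfold tur at he
    rw [Finset.mem_filter, Finset.mem_powersetCard] at he
    exact he.1.2
  · obtain ⟨a, b, c, d, hab, hac, had, hbc, hbd, hcd, rfl⟩ := Finset.card_eq_four.mp hS
    rcases four_colours (col a) (col b) (col c) (col d) with h | h | h | h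
    · refine ⟨{a, b, c}, (mem_tur hab hac hbc).mpr h, ?_⟩
      intro v hv
      simp only [Finset.mem_insert, Finset.mem_singleton] at hv ⊢
      tauto
    · refine ⟨{a, b, d}, (mem_tur hab had hbd).mpr h, ?_⟩
      intro v hv
      simp only [Finset.mem_insert, Finset.mem_singleton] at hv ⊢
      tauto
    · refine ⟨{a, c, d}, (mem_tur hac had hcd).mpr h, ?_⟩
      intro v hv
      simp only [Finset.mem_insert, Finset.mem_singleton] at hv ⊢
      tauto
    · refine ⟨{b, c, d}, (mem_tur hbc hbd hcd).mpr h, ?_⟩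
      intro v hv
      simp only [Finset.mem_insert, Finset.mem_singleton] at hv ⊢
      tauto

theorem no_pattern : ∀ c0 c1 c2 c3 c4 c5 : ZMod 3,
    ¬ (inT c0 c2 c4 ∧ inT c0 c2 c5 ∧ inT c0 c3 c4 ∧ inT c0 c3 c5 ∧ inT c1 c2 c3 ∧ inT c1 c4 c5 ∧
      inT c3 c4 c5 ∧ ¬ inT c0 c1 c2 ∧ ¬ inT c0 c1 c3 ∧ ¬ inT c0 c1 c4 ∧ ¬ inT c0 c1 c5 ∧
      ¬ inT c0 c2 c3 ∧ ¬ inT c0 c4 c5 ∧ ¬ inT c1 c2 c4 ∧ ¬ inT c1 c2 c5 ∧ ¬ inT c1 c3 c4 ∧
      ¬ inT c1 c3 c5 ∧ ¬ inT c2 c3 c4 ∧ ¬ inT c2 c3 c5) := by
  decide +kernel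

theorem no_pattern2 : ∀ c0 c1 c2 c3 c4 c5 : ZMod 3,
    ¬ (inT c0 c1 c2 ∧ inT c0 c1 c3 ∧ inT c1 c4 c5 ∧ inT c2 c3 c4 ∧ inT c2 c3 c5 ∧ inT c2 c4 c5 ∧
      inT c3 c4 c5 ∧ ¬ inT c0 c1 c4 ∧ ¬ inT c0 c1 c5 ∧ ¬ inT c0 c2 c3 ∧ ¬ inT c0 c2 c4 ∧
      ¬ inT c0 c2 c5 ∧ ¬ inT c0 c3 c4 ∧ ¬ inT c0 c3 c5 ∧ ¬ inT c1 c2 c3 ∧ ¬ inT c1 c2 c4 ∧
      ¬ inT c1 c2 c5 ∧ ¬ inT c1 c3 c4 ∧ ¬ inT c1 c3 c5) := by
  decide +kernel

theorem copies_zero {n : ℕ} {H : Finset (Finset (Fin n))} {A : Finset (Finset (Fin 6))}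
    {f : Finset (Fin 6)} (h : ∀ x, ¬ IsCopy H A f x) : copies H A f = 0 := by
  classical
  unfold copies
  rw [Finset.card_eq_zero, Finset.filter_eq_empty_iff]
  intro x _ hx
  exact h x hx

theorem tur_triple {n : ℕ} {A : Finset (Finset (Fin 6))} {f : Finset (Fin 6)} {x : Fin 6 → Fin n}
    (h : IsCopy (tur n) A f x) (i j k : Fin 6) (hij : i ≠ j) (hik : i ≠ k) (hjk : j ≠ k)
    (hf : ({i, j, k} : Finset (Fin 6)) ≠ f) :
    inT (col (x i)) (col (x j)) (col (x k)) ↔ ({i, j, k} : Finset (Fin 6)) ∈ A := by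
  have hc : ({i, j, k} : Finset (Fin 6)).card = 3 := card_three hij hik hjk
  rw [← h.2 _ hc hf, img]
  exact (mem_tur (fun e => hij (h.1 e)) (fun e => hik (h.1 e)) (fun e => hjk (h.1 e))).symm

theorem tur_copies (n : ℕ) : copies (tur n) A₁ {2, 4, 5} = 0 := by
  refine copies_zero (fun x hx => ?_)
  have m := fun i j k hij hik hjk hf => tur_triple hx i j k hij hik hjk hf
  refine no_pattern (col (x 0)) (col (x 1)) (col (x 2)) (col (x 3)) (col (x 4)) (col (x 5)) ⟨(m 0 2 4 (by decide) (by decide) (by decide) (by decide)).mpr (by decide),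
    (m 0 2 5 (by decide) (by decide) (by decide) (by decide)).mpr (by decide),
    (m 0 3 4 (by decide) (by decide) (by decide) (by decide)).mpr (by decide),
    (m 0 3 5 (by decide) (by decide) (by decide) (by decide)).mpr (by decide),
    (m 1 2 3 (by decide) (by decide) (by decide) (by decide)).mpr (by decide),
    (m 1 4 5 (by decide) (by decide) (by decide) (by decide)).mpr (by decide),
    (m 3 4 5 (by decide) (by decide) (by decide) (by decide)).mpr (by decide),
    fun h => absurd ((m 0 1 2 (by decide) (by decide) (by decide) (by decide)).mp h) (by decide),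
    fun h => absurd ((m 0 1 3 (by decide) (by decide) (by decide) (by decide)).mp h) (by decide),
    fun h => absurd ((m 0 1 4 (by decide) (by decide) (by decide) (by decide)).mp h) (by decide),
    fun h => absurd ((m 0 1 5 (by decide) (by decide) (by decide) (by decide)).mp h) (by decide),
    fun h => absurd ((m 0 2 3 (by decide) (by decide) (by decide) (by decide)).mp h) (by decide),
    fun h => absurd ((m 0 4 5 (by decide) (by decide) (by decide) (by decide)).mp h) (by decide),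
    fun h => absurd ((m 1 2 4 (by decide) (by decide) (by decide) (by decide)).mp h) (by decide),
    fun h => absurd ((m 1 2 5 (by decide) (by decide) (by decide) (by decide)).mp h) (by decide),
    fun h => absurd ((m 1 3 4 (by decide) (by decide) (by decide) (by decide)).mp h) (by decide),
    fun h => absurd ((m 1 3 5 (by decide) (by decide) (by decide) (by decide)).mp h) (by decide),
    fun h => absurd ((m 2 3 4 (by decide) (by decide) (by decide) (by decide)).mp h) (by decide),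
    fun h => absurd ((m 2 3 5 (by decide) (by decide) (by decide) (by decide)).mp h) (by decide)⟩

theorem tur_copies2 (n : ℕ) : copies (tur n) A₂ {0, 4, 5} = 0 := by
  refine copies_zero (fun x hx => ?_)
  have m := fun i j k hij hik hjk hf => tur_triple hx i j k hij hik hjk hf
  refine no_pattern2 (col (x 0)) (col (x 1)) (col (x 2)) (col (x 3)) (col (x 4)) (col (x 5)) ⟨(m 0 1 2 (by decide) (by decide) (by decide) (by decide)).mpr (by decide),
    (m 0 1 3 (by decide) (by decide) (by decide) (by decide)).mpr (by decide),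
    (m 1 4 5 (by decide) (by decide) (by decide) (by decide)).mpr (by decide),
    (m 2 3 4 (by decide) (by decide) (by decide) (by decide)).mpr (by decide),
    (m 2 3 5 (by decide) (by decide) (by decide) (by decide)).mpr (by decide),
    (m 2 4 5 (by decide) (by decide) (by decide) (by decide)).mpr (by decide),
    (m 3 4 5 (by decide) (by decide) (by decide) (by decide)).mpr (by decide),
    fun h => absurd ((m 0 1 4 (by decide) (by decide) (by decide) (by decide)).mp h) (by decide),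
    fun h => absurd ((m 0 1 5 (by decide) (by decide) (by decide) (by decide)).mp h) (by decide),
    fun h => absurd ((m 0 2 3 (by decide) (by decide) (by decide) (by decide)).mp h) (by decide),
    fun h => absurd ((m 0 2 4 (by decide) (by decide) (by decide) (by decide)).mp h) (by decide),
    fun h => absurd ((m 0 2 5 (by decide) (by decide) (by decide) (by decide)).mp h) (by decide),
    fun h => absurd ((m 0 3 4 (by decide) (by decide) (by decide) (by decide)).mp h) (by decide),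
    fun h => absurd ((m 0 3 5 (by decide) (by decide) (by decide) (by decide)).mp h) (by decide),
    fun h => absurd ((m 1 2 3 (by decide) (by decide) (by decide) (by decide)).mp h) (by decide),
    fun h => absurd ((m 1 2 4 (by decide) (by decide) (by decide) (by decide)).mp h) (by decide),
    fun h => absurd ((m 1 2 5 (by decide) (by decide) (by decide) (by decide)).mp h) (by decide),
    fun h => absurd ((m 1 3 4 (by decide) (by decide) (by decide) (by decide)).mp h) (by decide),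
    fun h => absurd ((m 1 3 5 (by decide) (by decide) (by decide) (by decide)).mp h) (by decide)⟩

theorem no_link_path : ∀ a c0 c1 c2 c3 : ZMod 3,
    ¬ (inT a c0 c1 ∧ inT a c1 c2 ∧ inT a c2 c3 ∧ ¬ inT a c0 c2 ∧ ¬ inT a c0 c3 ∧ ¬ inT a c1 c3) := by
  decide +kernel

theorem no_link_cycle : ∀ a c0 c1 c2 c3 : ZMod 3,
    ¬ (inT a c0 c1 ∧ inT a c1 c2 ∧ inT a c2 c3 ∧ inT a c0 c3 ∧ ¬ inT a c0 c2 ∧ ¬ inT a c1 c3) := by
  decide +kernel

theorem no_link_paw : ∀ a c0 c1 c2 c3 : ZMod 3,
    ¬ (inT a c0 c1 ∧ inT a c0 c2 ∧ inT a c1 c2 ∧ inT a c2 c3 ∧ ¬ inT a c0 c3 ∧ ¬ inT a c1 c3) := by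
  decide +kernel

theorem tur_link {n : ℕ} {L : SimpleGraph (Fin 4)} {v : Fin n} {x : Fin 4 → Fin n}
    (h : IsLinkCopy (tur n) L v x) (i j : Fin 4) (hij : i ≠ j) :
    inT (col v) (col (x i)) (col (x j)) ↔ L.Adj i j := by
  obtain ⟨inj, hv, hL⟩ := h
  rw [← hL i j hij]
  exact (mem_tur (hv i).symm (hv j).symm (fun h' => hij (inj h'))).symm

theorem linkCopies_zero {n : ℕ} {H : Finset (Finset (Fin n))} {L : SimpleGraph (Fin 4)}
    (h : ∀ v x, ¬ IsLinkCopy H L v x) : linkCopies H L = 0 := by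
  classical
  unfold linkCopies
  rw [Finset.card_eq_zero, Finset.filter_eq_empty_iff]
  intro y _ hy
  exact h _ _ hy

theorem tur_path (n : ℕ) : linkCopies (tur n) (SimpleGraph.pathGraph 4) = 0 := by
  refine linkCopies_zero (fun v x h => ?_)
  refine no_link_path (col v) (col (x 0)) (col (x 1)) (col (x 2)) (col (x 3)) ⟨?_, ?_, ?_, ?_, ?_, ?_⟩
  · rw [tur_link h 0 1 (by decide), SimpleGraph.pathGraph_adj]; decide
  · rw [tur_link h 1 2 (by decide), SimpleGraph.pathGraph_adj]; decide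
  · rw [tur_link h 2 3 (by decide), SimpleGraph.pathGraph_adj]; decide
  · rw [tur_link h 0 2 (by decide), SimpleGraph.pathGraph_adj]; decide
  · rw [tur_link h 0 3 (by decide), SimpleGraph.pathGraph_adj]; decide
  · rw [tur_link h 1 3 (by decide), SimpleGraph.pathGraph_adj]; decide

theorem tur_cycle (n : ℕ) : linkCopies (tur n) (SimpleGraph.cycleGraph 4) = 0 := by
  refine linkCopies_zero (fun v x h => ?_)
  refine no_link_cycle (col v) (col (x 0)) (col (x 1)) (col (x 2)) (col (x 3))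
    ⟨?_, ?_, ?_, ?_, ?_, ?_⟩
  · rw [tur_link h 0 1 (by decide), SimpleGraph.cycleGraph_adj']; decide
  · rw [tur_link h 1 2 (by decide), SimpleGraph.cycleGraph_adj']; decide
  · rw [tur_link h 2 3 (by decide), SimpleGraph.cycleGraph_adj']; decide
  · rw [tur_link h 0 3 (by decide), SimpleGraph.cycleGraph_adj']; decide
  · rw [tur_link h 0 2 (by decide), SimpleGraph.cycleGraph_adj']; decide
  · rw [tur_link h 1 3 (by decide), SimpleGraph.cycleGraph_adj']; decide

theorem tur_paw (n : ℕ) : linkCopies (tur n) paw = 0 := by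
  refine linkCopies_zero (fun v x h => ?_)
  refine no_link_paw (col v) (col (x 0)) (col (x 1)) (col (x 2)) (col (x 3))
    ⟨?_, ?_, ?_, ?_, ?_, ?_⟩
  · rw [tur_link h 0 1 (by decide)]; simp [paw]
  · rw [tur_link h 0 2 (by decide)]; simp [paw]
  · rw [tur_link h 1 2 (by decide)]; simp [paw]
  · rw [tur_link h 2 3 (by decide)]; simp [paw]
  · rw [tur_link h 0 3 (by decide)]; simp [paw]
  · rw [tur_link h 1 3 (by decide)]; simp [paw]

/-- the vertices `3 k + i` with `k < m` -/
theorem card_class (n m : ℕ) (hm : 3 * m ≤ n) (i : ZMod 3) :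
    m ≤ (Finset.univ.filter (fun z : Fin n => col z = i)).card := by
  have hi : (i.val : ℕ) < 3 := ZMod.val_lt i
  let f : Fin m → Fin n := fun k => ⟨3 * (k : ℕ) + i.val, by have := k.2; omega⟩
  have hf : Function.Injective f := by
    intro a b h
    have := Fin.mk.inj_iff.mp h
    apply Fin.ext
    omega
  have hsub : Finset.univ.map ⟨f, hf⟩ ⊆ Finset.univ.filter (fun z : Fin n => col z = i) := by
    intro z hz
    rw [Finset.mem_map] at hz
    obtain ⟨k, -, rfl⟩ := hz
    rw [Finset.mem_filter]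
    refine ⟨Finset.mem_univ _, ?_⟩
    unfold col
    change ((3 * (k : ℕ) + i.val : ℕ) : ZMod 3) = i
    push_cast
    rw [ZMod.natCast_zmod_val]
    have : (3 : ZMod 3) = 0 := rfl
    rw [this, zero_mul, zero_add]
  have := Finset.card_le_card hsub
  rwa [Finset.card_map, Finset.card_univ, Fintype.card_fin] at this

theorem same_colour : ∀ a b : ZMod 3, ¬ inT a a (a + 1) ∧ (a ≠ b → ¬ inT a b b ∨ ¬ inT a b a) := by
  decide

/-- codegrees of pairs of one colour -/
theorem codeg_same {n m : ℕ} (hm : 3 * m ≤ n) {x y : Fin n} (hxy : x ≠ y) (hc : col x = col y) :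
    m ≤ codeg (tur n) x y := by
  refine le_trans (card_class n m hm (col x + 1)) ?_
  unfold codeg
  apply Finset.card_le_card
  intro z hz
  rw [Finset.mem_filter] at hz ⊢
  have hne : ∀ c : ZMod 3, c + 1 ≠ c := by decide
  have hzx : z ≠ x := by
    rintro rfl
    exact hne _ hz.2.symm
  have hzy : z ≠ y := by
    rintro rfl
    exact hne (col x) (by rw [← hz.2]; exact hc.symm)
  refine ⟨hz.1, hzx, hzy, ?_⟩
  rw [mem_tur hxy hzx.symm hzy.symm, ← hc, hz.2]
  exact (same_colour (col x) 0).1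

theorem two_classes : ∀ a b : ZMod 3, a ≠ b → ∃ c d : ZMod 3, c ≠ d ∧ ¬ inT a b c ∧ ¬ inT a b d ∧
    (c = a ∨ c = b) ∧ d ≠ a ∧ d ≠ b := by
  decide

/-- codegrees of pairs of two colours -/
theorem codeg_diff {n m : ℕ} (hm : 3 * m ≤ n) {x y : Fin n} (hc : col x ≠ col y) :
    2 * m - 1 ≤ codeg (tur n) x y := by
  have hxy : x ≠ y := by
    rintro rfl
    exact hc rfl
  obtain ⟨c, d, hcd, h1, h2, h3, h4, h5⟩ := two_classes (col x) (col y) hc
  have hC := card_class n m hm c
  have hD := card_class n m hm d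
  -- the vertex of colour `c` among `x, y`
  obtain ⟨v, hv, hvc⟩ : ∃ v : Fin n, (v = x ∨ v = y) ∧ col v = c := by
    rcases h3 with h3 | h3
    · exact ⟨x, Or.inl rfl, h3.symm⟩
    · exact ⟨y, Or.inr rfl, h3.symm⟩
  have hdisj : Disjoint ((Finset.univ.filter (fun z : Fin n => col z = c)).erase v)
      (Finset.univ.filter (fun z : Fin n => col z = d)) := by
    rw [Finset.disjoint_left]
    intro z hz hz'
    rw [Finset.mem_erase, Finset.mem_filter] at hz
    rw [Finset.mem_filter] at hz'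
    exact hcd (hz.2.2.symm.trans hz'.2)
  have hcard : ((Finset.univ.filter (fun z : Fin n => col z = c)).erase v).card
      = (Finset.univ.filter (fun z : Fin n => col z = c)).card - 1 := by
    apply Finset.card_erase_of_mem
    rw [Finset.mem_filter]
    exact ⟨Finset.mem_univ _, hvc⟩
  have hsub : ((Finset.univ.filter (fun z : Fin n => col z = c)).erase v)
      ∪ (Finset.univ.filter (fun z : Fin n => col z = d))
      ⊆ Finset.univ.filter (fun z => z ≠ x ∧ z ≠ y ∧ ({x, y, z} : Finset (Fin n)) ∉ tur n) := by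
    intro z hz
    rw [Finset.mem_union, Finset.mem_erase, Finset.mem_filter, Finset.mem_filter] at hz
    rw [Finset.mem_filter]
    refine ⟨Finset.mem_univ _, ?_⟩
    rcases hz with ⟨hzv, -, hz⟩ | ⟨-, hz⟩
    · have hzx : z ≠ x := by
        rintro rfl
        rcases hv with rfl | rfl
        · exact hzv rfl
        · exact hc (hz.trans hvc.symm)
      have hzy : z ≠ y := by
        rintro rfl
        rcases hv with rfl | rfl
        · exact hc (hvc.trans hz.symm)
        · exact hzv rfl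
      refine ⟨hzx, hzy, ?_⟩
      rw [mem_tur hxy hzx.symm hzy.symm, hz]
      exact h1
    · have hzx : z ≠ x := by
        rintro rfl
        exact h4 hz.symm
      have hzy : z ≠ y := by
        rintro rfl
        exact h5 hz.symm
      refine ⟨hzx, hzy, ?_⟩
      rw [mem_tur hxy hzx.symm hzy.symm, hz]
      exact h2
  have := Finset.card_le_card hsub
  rw [Finset.card_union_of_disjoint hdisj, hcard] at this
  unfold codeg
  omega

theorem card_S1 {n m : ℕ} (hm : 3 * m ≤ n) (x : Fin n) :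
    m - 1 ≤ ((Finset.univ.erase x).filter (fun y => col y = col x)).card := by
  have h := card_class n m hm (col x)
  have e : (Finset.univ.erase x).filter (fun y => col y = col x)
      = (Finset.univ.filter (fun y : Fin n => col y = col x)).erase x := by
    ext y
    simp only [Finset.mem_filter, Finset.mem_erase, Finset.mem_univ, and_true, true_and]
  rw [e, Finset.card_erase_of_mem (by rw [Finset.mem_filter]; exact ⟨Finset.mem_univ _, rfl⟩)]
  omega

theorem card_S2 {n m : ℕ} (hm : 3 * m ≤ n) (x : Fin n) :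
    2 * m ≤ ((Finset.univ.erase x).filter (fun y => ¬ col y = col x)).card := by
  have h1 := card_class n m hm (col x + 1)
  have h2 := card_class n m hm (col x + 2)
  have n1 : ∀ c : ZMod 3, c + 1 ≠ c := by decide
  have n2 : ∀ c : ZMod 3, c + 2 ≠ c := by decide
  have n3 : ∀ c : ZMod 3, c + 1 ≠ c + 2 := by decide
  have hdisj : Disjoint (Finset.univ.filter (fun z : Fin n => col z = col x + 1))
      (Finset.univ.filter (fun z : Fin n => col z = col x + 2)) := by
    rw [Finset.disjoint_left]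
    intro z hz hz'
    rw [Finset.mem_filter] at hz hz'
    exact n3 (col x) (hz.2.symm.trans hz'.2)
  have hsub : (Finset.univ.filter (fun z : Fin n => col z = col x + 1))
      ∪ (Finset.univ.filter (fun z : Fin n => col z = col x + 2))
      ⊆ (Finset.univ.erase x).filter (fun y => ¬ col y = col x) := by
    intro z hz
    rw [Finset.mem_union, Finset.mem_filter, Finset.mem_filter] at hz
    rw [Finset.mem_filter, Finset.mem_erase]
    have hne : ¬ col z = col x := by
      intro h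
      rcases hz with hz | hz
      · exact n1 (col x) (hz.2.symm.trans h)
      · exact n2 (col x) (hz.2.symm.trans h)
    refine ⟨⟨?_, Finset.mem_univ _⟩, hne⟩
    rintro rfl
    exact hne rfl
  have := Finset.card_le_card hsub
  rw [Finset.card_union_of_disjoint hdisj] at this
  omega

theorem lower {n : ℕ} (hn : 5 ≤ n) (p : ℝ) (hp : 0 ≤ p) :
    turanConst p * ((n : ℝ) - 5) ^ (p + 2) ≤ pairSum (tur n) p := by
  obtain ⟨m, hm1, hm2⟩ : ∃ m : ℕ, 3 * m ≤ n ∧ n ≤ 3 * m + 2 := ⟨n / 3, by omega, by omega⟩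
  have hm0 : 1 ≤ m := by omega
  set q : ℝ := (m : ℝ) - 1 with hq
  have hmR : (1 : ℝ) ≤ (m : ℝ) := by exact_mod_cast hm0
  have hq0 : 0 ≤ q := by linarith
  have hx : ∀ x : Fin n, (1 + (2 : ℝ) ^ (p + 1)) * (q ^ p * q)
      ≤ ∑ y ∈ Finset.univ.erase x, (codeg (tur n) x y : ℝ) ^ p := by
    intro x
    rw [← Finset.sum_filter_add_sum_filter_not (Finset.univ.erase x) (fun y => col y = col x)]
    have a1 : (((Finset.univ.erase x).filter (fun y => col y = col x)).card : ℝ) * q ^ p
        ≤ ∑ y ∈ (Finset.univ.erase x).filter (fun y => col y = col x),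
          (codeg (tur n) x y : ℝ) ^ p := by
      rw [← nsmul_eq_mul]
      refine Finset.card_nsmul_le_sum _ _ _ (fun y hy => ?_)
      rw [Finset.mem_filter, Finset.mem_erase] at hy
      have h := codeg_same (m := m) hm1 (Ne.symm hy.1.1) hy.2.symm
      have hR : (m : ℝ) ≤ (codeg (tur n) x y : ℝ) := by exact_mod_cast h
      exact Real.rpow_le_rpow hq0 (by linarith) hp
    have a2 : (((Finset.univ.erase x).filter (fun y => ¬ col y = col x)).card : ℝ)
          * ((2 : ℝ) ^ p * q ^ p)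
        ≤ ∑ y ∈ (Finset.univ.erase x).filter (fun y => ¬ col y = col x),
          (codeg (tur n) x y : ℝ) ^ p := by
      rw [← nsmul_eq_mul]
      refine Finset.card_nsmul_le_sum _ _ _ (fun y hy => ?_)
      rw [Finset.mem_filter, Finset.mem_erase] at hy
      have h := codeg_diff (m := m) hm1 (x := x) (y := y) (fun h => hy.2 h.symm)
      have h' : 2 * m ≤ codeg (tur n) x y + 1 := by omega
      have hR : 2 * (m : ℝ) ≤ (codeg (tur n) x y : ℝ) + 1 := by exact_mod_cast h'
      rw [← Real.mul_rpow (by norm_num) hq0]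
      exact Real.rpow_le_rpow (by linarith) (by linarith) hp
    have b1 : q ≤ (((Finset.univ.erase x).filter (fun y => col y = col x)).card : ℝ) := by
      have h := card_S1 (m := m) hm1 x
      have h' : m ≤ ((Finset.univ.erase x).filter (fun y => col y = col x)).card + 1 := by omega
      have hR : (m : ℝ) ≤ (((Finset.univ.erase x).filter (fun y => col y = col x)).card : ℝ) + 1 := by
        exact_mod_cast h'
      linarith
    have b2 : 2 * q ≤ (((Finset.univ.erase x).filter (fun y => ¬ col y = col x)).card : ℝ) := by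
      have h := card_S2 (m := m) hm1 x
      have hR : 2 * (m : ℝ) ≤ (((Finset.univ.erase x).filter (fun y => ¬ col y = col x)).card : ℝ) := by
        exact_mod_cast h
      linarith
    have hqp : 0 ≤ q ^ p := Real.rpow_nonneg hq0 _
    have h2p : 0 ≤ (2 : ℝ) ^ p := Real.rpow_nonneg (by norm_num) _
    have c1 := mul_le_mul_of_nonneg_right b1 hqp
    have c2 := mul_le_mul_of_nonneg_right b2 (mul_nonneg h2p hqp)
    have e : (2 : ℝ) ^ (p + 1) = 2 * (2 : ℝ) ^ p := by
      rw [Real.rpow_add_one (by norm_num)]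
      ring
    rw [e]
    linarith
  have hsum : ∑ _x : Fin n, (1 + (2 : ℝ) ^ (p + 1)) * (q ^ p * q) ≤ pairSum (tur n) p :=
    Finset.sum_le_sum (fun x _ => hx x)
  rw [Finset.sum_const, Finset.card_univ, Fintype.card_fin, nsmul_eq_mul] at hsum
  have hpos : 0 ≤ (1 + (2 : ℝ) ^ (p + 1)) * (q ^ p * q) := by positivity
  have hnR : 3 * q ≤ (n : ℝ) := by
    have : (3 : ℝ) * (m : ℝ) ≤ (n : ℝ) := by exact_mod_cast hm1
    linarith
  have h1 := mul_le_mul_of_nonneg_right hnR hpos
  refine le_trans ?_ (le_trans h1 hsum)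
  have hq3 : (n : ℝ) - 5 ≤ 3 * q := by
    have : (n : ℝ) ≤ 3 * (m : ℝ) + 2 := by exact_mod_cast hm2
    linarith
  have hn5 : 0 ≤ (n : ℝ) - 5 := by
    have : (5 : ℝ) ≤ (n : ℝ) := by exact_mod_cast hn
    linarith
  have h2 : ((n : ℝ) - 5) ^ (p + 2) ≤ (3 * q) ^ (p + 2) := Real.rpow_le_rpow hn5 hq3 (by linarith)
  have h3 : (3 * q) ^ (p + 2) = (3 : ℝ) ^ (p + 1) * (3 * q * (q ^ p * q)) := by
    rw [Real.mul_rpow (by norm_num) hq0]
    have e1 : (3 : ℝ) ^ (p + 2) = (3 : ℝ) ^ (p + 1) * 3 := by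
      rw [← Real.rpow_add_one (by norm_num)]
      congr 1
      ring
    have e2 : q ^ (p + 2) = q ^ p * q ^ 2 := by
      rw [Real.rpow_add' hq0 (by linarith)]
      norm_num
    rw [e1, e2]
    ring
  have h4 : 0 < (3 : ℝ) ^ (p + 1) := Real.rpow_pos_of_pos (by norm_num) _
  unfold turanConst
  rw [div_mul_eq_mul_div, div_le_iff₀ h4]
  have h5 := mul_le_mul_of_nonneg_left (h2.trans (le_of_eq h3))
    (by positivity : (0 : ℝ) ≤ 1 + (2 : ℝ) ^ (p + 1))
  refine le_trans h5 (le_of_eq ?_)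
  ring

/-- Let `H` be a Turán (3,4)-graph on `n` vertices. For each of the following numbers `ε`, Turán's
bound holds up to `24 ε n^3`, and, for every real `1 ≤ p < 3/2`, the sum of the `p`-th powers of the
codegrees of the complement is at most `((1 + 2^(p+1)) / 3^(p+1) + 144 ε) n^(p+2)`: the density of
the first configuration; the density of the second configuration plus `1 / n`; for every graph `L` on
four vertices, the density of the labelled induced copies of `L` in the links of `H` plus `10 / n`;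
the defect `1/3 - pairSum H 2 / n^4` of the second moment of the codegrees, divided by `144`. For
`3/2 ≤ p ≤ 29/10` the bound for the `p`-th powers holds without error term. Turán's construction
contains no copy of the two configurations, its links contain no induced path, cycle or paw on four
vertices, and it attains the bounds up to `O(n^(p+1))` for every `p ≥ 0`. -/
theorem result :
    (∀ (n : ℕ) (H : Finset (Finset (Fin n))), IsTuran34 H → ∀ ε : ℝ, IsRate H ε →
      4 / 9 * ((n.choose 3 : ℕ) : ℝ) ≤ (H.card : ℝ) + 5 / 18 * (n : ℝ) ^ 2 + 24 * ε * (n : ℝ) ^ 3 ∧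
      ∀ p : ℝ, 1 ≤ p → p ≤ 29 / 10 →
        pairSum H p ≤ turanConst p * (n : ℝ) ^ (p + 2)
          + if p < 3 / 2 then 144 * ε * (n : ℝ) ^ (p + 2) else 0) ∧
    (∀ n : ℕ, 5 ≤ n → ∃ H : Finset (Finset (Fin n)), IsTuran34 H ∧
      copies H A₁ {2, 4, 5} = 0 ∧ copies H A₂ {0, 4, 5} = 0 ∧
      linkCopies H (SimpleGraph.pathGraph 4) = 0 ∧ linkCopies H (SimpleGraph.cycleGraph 4) = 0 ∧
      linkCopies H paw = 0 ∧
      ∀ p : ℝ, 0 ≤ p → turanConst p * ((n : ℝ) - 5) ^ (p + 2) ≤ pairSum H p) :=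
  ⟨fun _ H hH ε hε => ⟨turan_bound H hH ε hε, fun p hp1 hp2 => upper H hH p hp1 hp2 ε hε⟩,
    fun n hn => ⟨tur n, tur_isTuran n, tur_copies n, tur_copies2 n, tur_path n, tur_cycle n,
      tur_paw n, fun p hp => lower hn p hp⟩⟩

end Pool.Agent.Results.MP_466853_co.LpNorm
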