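import Pool.Agent.H6N7.Bound
import Pool.Agent.H6Turan.Graph

set_option autoImplicit false

/-!
An improved bound in Turán's (3,4)-problem: the Turán density of `K₄⁽³⁾` is at most `0.5592`.
-/

namespace Pool.Agent.Results.MP_466853_co.UpperBound5592

open Pool.Agent.H6Turan

/-- Every 3-graph `H` on `n` vertices in which each 4 vertices span an edge has at least
`0.4408 C(n,3) - 0.2796 n²` edges. So `ρ₃ ≥ 0.4408`, that is `π(K₄⁽³⁾) ≤ 0.5592`. -/
theorem result (n : ℕ) (H : Finset (Finset (Fin n)))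
    (h3 : ∀ e ∈ H, e.card = 3)
    (h4 : ∀ S : Finset (Fin n), S.card = 4 → ∃ e ∈ H, e ⊆ S) :
    4408 / 10000 * ((n.choose 3 : ℕ) : ℝ) ≤ (H.card : ℝ) + 2796 / 10000 * (n : ℝ) ^ 2 := by
  have hfree : ∀ a b c d, gH H a b c * gH H a b d * gH H a c d * gH H b c d = 0 := by
    intro a b c d
    have h := gH_free H h3 h4 a b c d
    rcases gH_bit H a b c with h1 | h1
    · rw [h1]; simp
    rcases gH_bit H a b d with h2 | h2
    · rw [h2]; simp
    rcases gH_bit H a c d with h3 | h3
    · rw [h3]; simp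
    rcases gH_bit H b c d with h4 | h4
    · rw [h4]; simp
    exact absurd (by rw [h1, h2, h3, h4]; rfl) h
  have hmain := H6N7.density (gH H) (gH_bit H) hfree (gH_symm H)
  have hEE := EE_gH H
  rw [Fintype.card_fin] at hmain
  have hmainR : 10000 * (EE (gH H) : ℝ) ≤ 5592 * (n : ℝ) ^ 3 := by exact_mod_cast hmain
  have hEER : 6 * ((n.choose 3 : ℕ) : ℝ) ≤ (EE (gH H) : ℝ) + 6 * (H.card : ℝ) := by
    exact_mod_cast hEE
  have hchoose : ∀ m : ℕ, 6 * ((m.choose 3 : ℕ) : ℝ) = (m : ℝ) * ((m : ℝ) - 1) * ((m : ℝ) - 2) := by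
    intro m
    induction m with
    | zero => simp
    | succ m ih =>
      rw [Nat.choose_succ_succ' m 2, Nat.cast_add, mul_add, ih, Nat.cast_choose_two]
      push_cast
      ring
  replace hchoose := hchoose n
  have hn : (0 : ℝ) ≤ (n : ℝ) := Nat.cast_nonneg n
  nlinarith

end Pool.Agent.Results.MP_466853_co.UpperBound5592
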